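import Pool.Agent.Q296.Ranges.Main

/-!
# Two short walks need not cover better than one long walk

A reversible, irreducible and aperiodic chain on four states (the cycle of length four with a
heavy loop at one vertex) for which
`ℙ(|R_1(1) ∪ R_2(2)| ≥ 4) = 803/143259 < 52/8109 = ℙ(|R(3)| ≥ 4)` in stationarity. So the
stochastic dominance fails for `k = 2`, `t_1 = 1`, `t_2 = 2`.
-/

set_option autoImplicit false

namespace Pool.Agent.Results.MP_55034c_pr.NoDominance

open Pool.Agent.Q296.Ranges

/-- There is a reversible, irreducible, aperiodic chain on four states, with stationary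
distribution `π`, such that for two independent stationary copies and a single stationary copy
`ℙ(|R_1(1) ∪ R_2(2)| ≥ 4) = 803/143259 < 52/8109 = ℙ(|R(3)| ≥ 4)`; so the stochastic dominance of
the question fails. -/
theorem result :
    (∃ (P : Matrix (Fin 4) (Fin 4) ℝ) (π : Fin 4 → ℝ), IsChain P π ∧
      unionProb P π (![1, 2] : Fin 2 → ℕ) 4 = 803 / 143259 ∧
      rangeProb P π (1 + 2) 4 = 52 / 8109 ∧
      unionProb P π (![1, 2] : Fin 2 → ℕ) 4 < rangeProb P π (1 + 2) 4) ∧ ¬ Dominance := by
  refine ⟨⟨PR, piR, isChain, ?_, ?_, ?_⟩, not_dominance⟩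
  · have h := union_eq
    rw [show (![1, 2] : Fin 2 → ℕ) = tt from rfl, h]
    norm_num
  · have h := range_eq
    rw [show 1 + 2 = 3 from rfl, h]
    norm_num
  · exact fails

end Pool.Agent.Results.MP_55034c_pr.NoDominance
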